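import Pool.Agent.Helper28.T3E.StE

/-!
# Project T3E (MP_1d384c_nt), module RA: elementary relations of `nu` (floor counting)
-/

set_option autoImplicit false

namespace Pool.Agent.Helper99.T3E

open Pool.Agent.Helper28.T3E

theorem ra_card (m : ℕ) : ((Finset.range (3 * m)).filter fun i => i % 3 ≠ 1).card = 2 * m := by
  induction m with
  | zero => simp
  | succ m ih =>
    have e : 3 * (m + 1) = 3 * m + 1 + 1 + 1 := by ring
    rw [e, Finset.range_add_one, Finset.range_add_one, Finset.range_add_one, Finset.filter_insert,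
      Finset.filter_insert, Finset.filter_insert]
    have h0 : (3 * m + 1 + 1) % 3 ≠ 1 := by omega
    have h1 : ¬ ((3 * m + 1) % 3 ≠ 1) := by omega
    have h2 : (3 * m) % 3 ≠ 1 := by omega
    rw [if_pos h0, if_neg h1, if_pos h2, Finset.card_insert_of_notMem, Finset.card_insert_of_notMem, ih]
    · ring
    · simp
    · simp only [Finset.mem_insert, Finset.mem_filter, Finset.mem_range, not_or]
      constructor
      · omega
      · rintro ⟨h, -⟩
        omega

/-- the sum of floors -/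
def raE (m : ℕ) (d : ℤ) : ℤ :=
  ∑ i ∈ (Finset.range (3 * m)).filter (fun i => i % 3 ≠ 1),
    (((i : ℤ) + 1) * d / (9 * (m : ℤ)) - (i : ℤ) * d / (9 * (m : ℤ)))

theorem ra_shift (m : ℕ) (hm : 1 ≤ m) (d : ℤ) : raE m (d + 9 * m) = raE m d + 2 * m := by
  unfold raE
  have h9 : (9 * (m : ℤ)) ≠ 0 := by
    have : (1 : ℤ) ≤ m := by exact_mod_cast hm
    omega
  have h : ∀ i ∈ (Finset.range (3 * m)).filter (fun i => i % 3 ≠ 1),
      (((i : ℤ) + 1) * (d + 9 * m) / (9 * (m : ℤ)) - (i : ℤ) * (d + 9 * m) / (9 * (m : ℤ))) =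
      (((i : ℤ) + 1) * d / (9 * (m : ℤ)) - (i : ℤ) * d / (9 * (m : ℤ))) + 1 := by
    intro i _
    have e1 : ((i : ℤ) + 1) * (d + 9 * m) = ((i : ℤ) + 1) * d + ((i : ℤ) + 1) * (9 * m) := by ring
    have e2 : (i : ℤ) * (d + 9 * m) = (i : ℤ) * d + (i : ℤ) * (9 * m) := by ring
    rw [e1, e2, Int.add_mul_ediv_right _ _ h9, Int.add_mul_ediv_right _ _ h9]
    ring
  rw [Finset.sum_congr rfl h, Finset.sum_add_distrib, Finset.sum_const, ra_card]
  simp

/-- floor of the negative -/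
theorem ra_neg_div (a n : ℤ) (hn : 0 < n) (h : ¬ n ∣ a) : (-a) / n = -(a / n) - 1 := by
  have h1 := Int.emod_add_mul_ediv a n
  have h2 : a % n ≠ 0 := fun h3 => h (Int.dvd_of_emod_eq_zero h3)
  have h3 : 0 ≤ a % n := Int.emod_nonneg _ hn.ne'
  have h4 : a % n < n := Int.emod_lt_of_pos _ hn
  have e : -a = (n - a % n) + n * (-(a / n) - 1) := by linear_combination h1
  rw [e, Int.add_mul_ediv_left _ _ hn.ne', Int.ediv_eq_zero_of_lt (by omega) (by omega)]
  ring

theorem ra_neg (m : ℕ) (hm : 1 ≤ m) (d : ℤ)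
    (h : ∀ i : ℕ, 0 < i → i ≤ 3 * m → ¬ (9 * (m : ℤ)) ∣ (i : ℤ) * d) :
    raE m (-d) = -1 - raE m d := by
  unfold raE
  have h9 : (0 : ℤ) < 9 * (m : ℤ) := by
    have : (1 : ℤ) ≤ m := by exact_mod_cast hm
    omega
  have hS : (0 : ℕ) ∈ (Finset.range (3 * m)).filter (fun i => i % 3 ≠ 1) := by
    rw [Finset.mem_filter, Finset.mem_range]
    constructor
    · omega
    · norm_num
  have h1 : ∀ i ∈ (Finset.range (3 * m)).filter (fun i => i % 3 ≠ 1),
      (((i : ℤ) + 1) * (-d) / (9 * (m : ℤ)) - (i : ℤ) * (-d) / (9 * (m : ℤ))) =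
      -(((i : ℤ) + 1) * d / (9 * (m : ℤ)) - (i : ℤ) * d / (9 * (m : ℤ))) - (if i = 0 then 1 else 0) := by
    intro i hi
    rw [Finset.mem_filter, Finset.mem_range] at hi
    have e1 : ((i : ℤ) + 1) * (-d) = -(((i : ℤ) + 1) * d) := by ring
    have e2 : (i : ℤ) * (-d) = -((i : ℤ) * d) := by ring
    have n1 := h (i + 1) (by omega) (by omega)
    push_cast at n1
    rw [e1, e2, ra_neg_div _ _ h9 n1]
    by_cases h0 : i = 0
    · subst h0
      simp
    · rw [if_neg h0, ra_neg_div _ _ h9 (h i (by omega) (by omega))]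
      ring
  rw [Finset.sum_congr rfl h1, Finset.sum_sub_distrib, Finset.sum_neg_distrib, Finset.sum_ite_eq',
    if_pos hS]
  ring

/-- counting in `ℕ` -/
theorem ra_fiber (m D i : ℕ) (hm : 1 ≤ m) (hD : 0 < D) (hc : Nat.Coprime (9 * m) D) (hi : i < 3 * m)
    (hi3 : i % 3 ≠ 1) :
    (((Finset.range D).filter fun j => 0 < j ∧ 3 * j < D ∧ (9 * m * j / D) % 3 ≠ 1).filter
      fun j => 9 * m * j / D = i) =
      Finset.Ioc (i * D / (9 * m)) ((i + 1) * D / (9 * m)) := by
  have h9 : 0 < 9 * m := by omega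
  ext j
  simp only [Finset.mem_filter, Finset.mem_range, Finset.mem_Ioc]
  rw [Nat.div_lt_iff_lt_mul h9, Nat.le_div_iff_mul_le h9]
  constructor
  · rintro ⟨⟨-, h1, -, -⟩, h4⟩
    have h5 : i * D ≤ 9 * m * j := by
      rw [← h4]
      exact Nat.div_mul_le_self _ _
    have h6 : 9 * m * j < (i + 1) * D := by
      have h7 := Nat.lt_mul_div_succ (9 * m * j) hD
      rw [h4] at h7
      rw [mul_comm (i + 1) D]
      exact h7
    constructor
    · rcases Nat.lt_or_ge (i * D) (j * (9 * m)) with h | h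
      · exact h
      · exfalso
        have h7 : i * D = 9 * m * j := by
          apply le_antisymm h5
          rw [mul_comm (9 * m) j]
          exact h
        have h8 : 9 * m ∣ i := hc.dvd_of_dvd_mul_right ⟨j, h7⟩
        have h10 : i = 0 := Nat.eq_zero_of_dvd_of_lt h8 (by omega)
        rw [h10, zero_mul] at h7
        have : 0 < 9 * m * j := Nat.mul_pos h9 h1
        omega
    · rw [mul_comm j]
      exact h6.le
  · rintro ⟨h1, h2⟩
    have h3 : 9 * m * j ≠ (i + 1) * D := by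
      intro h
      have h8 : 9 * m ∣ i + 1 := hc.dvd_of_dvd_mul_right ⟨j, h.symm⟩
      have := Nat.eq_zero_of_dvd_of_lt h8 (by omega)
      omega
    have h4 : 9 * m * j < (i + 1) * D := by
      rw [mul_comm j] at h2
      omega
    have h5 : i * D ≤ 9 * m * j := by
      rw [mul_comm j] at h1
      exact h1.le
    have h6 : 9 * m * j / D = i := Nat.div_eq_of_lt_le h5 h4
    have h7 : 0 < j := by
      rcases Nat.eq_zero_or_pos j with h | h
      · rw [h] at h1
        simp at h1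
      · exact h
    have h8 : 3 * j < D := by
      have h9' : (i + 1) * D ≤ 3 * m * D := Nat.mul_le_mul_right _ (by omega)
      have h10 : 3 * m * (3 * j) < 3 * m * D := by
        have : 3 * m * (3 * j) = 9 * m * j := by ring
        omega
      exact lt_of_mul_lt_mul_left h10 (Nat.zero_le _)
    refine ⟨⟨by omega, h7, h8, ?_⟩, h6⟩
    rw [h6]
    exact hi3

/-- the condition on the residue -/
theorem ra_cond (m D j : ℕ) (hD : 0 < D) (hD3 : D % 3 ≠ 0) :
    (3 * ((3 * m * j) % D) < D ∨ 2 * D < 3 * ((3 * m * j) % D)) ↔ (9 * m * j / D) % 3 ≠ 1 := by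
  set x := (3 * m * j) % D with hx
  set q := (3 * m * j) / D with hq
  have h1 : D * q + x = 3 * m * j := Nat.div_add_mod _ _
  have h2 : x < D := Nat.mod_lt _ hD
  have e : 9 * m * j = 3 * x + D * (3 * q) := by
    have : 9 * m * j = 3 * (3 * m * j) := by ring
    rw [this, ← h1]
    ring
  rw [e, Nat.add_mul_div_left _ _ hD]
  have h3 : 3 * x / D < 3 := Nat.div_lt_of_lt_mul (by omega)
  have h4 : 3 * x / D * D ≤ 3 * x := Nat.div_mul_le_self _ _
  have h5 : 3 * x < D * (3 * x / D + 1) := Nat.lt_mul_div_succ _ hD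
  have h6 : (3 * x / D + 3 * q) % 3 = 3 * x / D := by
    rw [Nat.add_mul_mod_self_left, Nat.mod_eq_of_lt h3]
  rw [h6]
  interval_cases h : 3 * x / D <;> omega

/-- the count -/
theorem ra_count (m D : ℕ) (hm : 1 ≤ m) (hD : 0 < D) (hc : Nat.Coprime (9 * m) D) :
    (((Finset.range D).filter fun j : ℕ => 0 < j ∧ 3 * j < D ∧
      (3 * (((3 * (m : ℤ)) * j) % (D : ℤ)) < D ∨ 2 * (D : ℤ) < 3 * (((3 * (m : ℤ)) * j) % (D : ℤ)))).card : ℤ) =
      raE m D := by
  have hD3 : D % 3 ≠ 0 := by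
    intro h
    have h1 : 3 ∣ D := Nat.dvd_of_mod_eq_zero h
    have h2 : 3 ∣ 9 * m := ⟨3 * m, by ring⟩
    have h3 := Nat.dvd_gcd h2 h1
    rw [hc] at h3
    norm_num at h3
  have e1 : ((Finset.range D).filter fun j : ℕ => 0 < j ∧ 3 * j < D ∧
      (3 * (((3 * (m : ℤ)) * j) % (D : ℤ)) < D ∨ 2 * (D : ℤ) < 3 * (((3 * (m : ℤ)) * j) % (D : ℤ)))) =
      (Finset.range D).filter fun j => 0 < j ∧ 3 * j < D ∧ (9 * m * j / D) % 3 ≠ 1 := by
    refine Finset.filter_congr fun j _ => ?_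
    have h1 := ra_cond m D j hD hD3
    have h2 : ((3 * (m : ℤ)) * j) % (D : ℤ) = (((3 * m * j) % D : ℕ) : ℤ) := by push_cast; rfl
    rw [h2, ← h1]
    constructor
    · rintro ⟨a, b, c⟩
      exact ⟨a, b, by omega⟩
    · rintro ⟨a, b, c⟩
      exact ⟨a, b, by omega⟩
  rw [e1]
  have hmap : ∀ j ∈ (Finset.range D).filter (fun j => 0 < j ∧ 3 * j < D ∧ (9 * m * j / D) % 3 ≠ 1),
      9 * m * j / D ∈ (Finset.range (3 * m)).filter fun i => i % 3 ≠ 1 := by
    intro j hj
    rw [Finset.mem_filter, Finset.mem_range] at hj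
    rw [Finset.mem_filter, Finset.mem_range]
    refine ⟨?_, hj.2.2.2⟩
    apply Nat.div_lt_of_lt_mul
    have h1 : 3 * m * (3 * j) < 3 * m * D := Nat.mul_lt_mul_of_pos_left hj.2.2.1 (by omega)
    have h2 : 9 * m * j = 3 * m * (3 * j) := by ring
    rw [h2, mul_comm D]
    exact h1
  rw [Finset.card_eq_sum_card_fiberwise hmap]
  unfold raE
  push_cast
  refine Finset.sum_congr rfl fun i hi => ?_
  rw [Finset.mem_filter, Finset.mem_range] at hi
  rw [ra_fiber m D i hm hD hc hi.1 hi.2, Nat.card_Ioc, Nat.cast_sub]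
  · push_cast
    rfl
  · exact Nat.div_le_div_right (Nat.mul_le_mul_right _ (Nat.le_succ _))

theorem ra_Ne (m : ℕ) (d : ℤ) (hm : 1 ≤ m) (hd : d ≠ 0) (hc : IsCoprime (3 * (m : ℤ)) d) :
    Pool.Agent.Helper28.T3E.Ne (3 * (m : ℤ)) d = raE m (d.natAbs : ℤ) := by
  have h1 : Nat.Coprime (9 * m) d.natAbs := by
    have h2 : IsCoprime (9 * (m : ℤ)) d := by
      have h3 : IsCoprime (3 : ℤ) d := hc.of_mul_left_left
      have h4 := h3.mul_left hc
      have e : (3 : ℤ) * (3 * m) = 9 * m := by ring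
      rwa [e] at h4
    have h5 := Int.isCoprime_iff_gcd_eq_one.1 h2
    rw [Int.gcd_def] at h5
    have e : (9 * (m : ℤ)).natAbs = 9 * m := by
      rw [show (9 * (m : ℤ)) = ((9 * m : ℕ) : ℤ) by push_cast; ring, Int.natAbs_natCast]
    rw [e] at h5
    exact h5
  unfold Pool.Agent.Helper28.T3E.Ne
  exact ra_count m d.natAbs hm (Int.natAbs_pos.2 hd) h1

/-- the formula for `nu` -/
theorem ra_nu (m : ℕ) (d : ℤ) (hm : 1 ≤ m) (hc : IsCoprime (3 * (m : ℤ)) d) :
    nu (3 * (m : ℤ)) d = if d % 3 = 1 then 3 * raE m d - (2 * d - 2) / 3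
      else -3 * raE m d + (2 * d - 7) / 3 := by
  have h3 : IsCoprime (3 : ℤ) d := hc.of_mul_left_left
  have hd3 : d % 3 ≠ 0 := by
    intro h
    have h1 : (3 : ℤ) ∣ d := Int.dvd_of_emod_eq_zero h
    have h2 := h3.isUnit_of_dvd' dvd_rfl h1
    rw [Int.isUnit_iff] at h2
    omega
  have hd : d ≠ 0 := by
    rintro rfl
    simp at hd3
  unfold nu
  rw [ra_Ne m d hm hd hc]
  rcases lt_or_gt_of_ne hd with h | h
  · have e : (d.natAbs : ℤ) = -d := by omega
    have hn : raE m (-d) = -1 - raE m d := by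
      refine ra_neg m hm d fun i h1 h2 h4 => ?_
      have h5 : IsCoprime (9 * (m : ℤ)) d := by
        have h6 := h3.mul_left hc
        have e : (3 : ℤ) * (3 * m) = 9 * m := by ring
        rwa [e] at h6
      have h6 := h5.dvd_of_dvd_mul_right h4
      have h7 := Int.le_of_dvd (by exact_mod_cast h1) h6
      omega
    rw [e, hn]
    split_ifs with a1 a2 a2 <;> omega
  · have e : (d.natAbs : ℤ) = d := by omega
    rw [e]
    split_ifs with a1 a2 a2 <;> omega

theorem ra_four (m : ℕ) (d : ℤ) (hm : 1 ≤ m) (hc : IsCoprime (3 * (m : ℤ)) d) :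
    nu (3 * (m : ℤ)) (d + 3 * (3 * (m : ℤ))) = nu (3 * (m : ℤ)) d := by
  have hc' : IsCoprime (3 * (m : ℤ)) (d + 3 * (3 * (m : ℤ))) := by
    have := hc.add_mul_left_right 3
    rwa [mul_comm (3 * (m : ℤ)) 3] at this
  rw [ra_nu m _ hm hc', ra_nu m _ hm hc]
  have e : d + 3 * (3 * (m : ℤ)) = d + 9 * m := by ring
  rw [e, ra_shift m hm]
  have h3 : IsCoprime (3 : ℤ) d := hc.of_mul_left_left
  split_ifs with a1 a2 a2 <;> omega

theorem ra_one (b d : ℤ) (hc : IsCoprime b d) : nu (-b) d = nu b d := by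
  have h : Pool.Agent.Helper28.T3E.Ne (-b) d = Pool.Agent.Helper28.T3E.Ne b d := by
    unfold Pool.Agent.Helper28.T3E.Ne
    congr 2
    refine Finset.filter_congr fun j hj => ?_
    rw [Finset.mem_range] at hj
    refine and_congr_right fun hj0 => and_congr_right fun hj3 => ?_
    set D : ℤ := (d.natAbs : ℤ) with hD
    have hDp : 0 < D := by omega
    set x := (b * (j : ℤ)) % D with hx
    have hx0 : 0 ≤ x := Int.emod_nonneg _ hDp.ne'
    have hx1 : x < D := Int.emod_lt_of_pos _ hDp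
    have hx2 : x ≠ 0 := by
      intro h0
      have h1 : D ∣ b * j := Int.dvd_of_emod_eq_zero h0
      have h2 : IsCoprime D b := by
        have h7 : D = d ∨ D = -d := by omega
        rcases h7 with e | e
        · rw [e]
          exact hc.symm
        · rw [e]
          exact hc.symm.neg_left
      have h3 := Int.le_of_dvd (by exact_mod_cast hj0) (h2.dvd_of_dvd_mul_left h1)
      omega
    have h1 := Int.emod_add_mul_ediv (b * (j : ℤ)) D
    have e : -b * (j : ℤ) = (D - x) + D * (-((b * (j : ℤ)) / D) - 1) := by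
      rw [← hx] at h1
      linear_combination h1
    have h4 : (-b * (j : ℤ)) % D = D - x := by
      rw [e, Int.add_mul_emod_self_left, Int.emod_eq_of_lt (by omega) (by omega)]
    rw [h4]
    omega
  unfold nu
  rw [h]

theorem ra_two (b d : ℤ) : nu b (-d) = nu b d := by
  unfold nu Pool.Agent.Helper28.T3E.Ne
  rw [Int.natAbs_neg]

theorem ra_three (b d : ℤ) : nu (b + 3 * d) d = nu b d := by
  have h : Pool.Agent.Helper28.T3E.Ne (b + 3 * d) d = Pool.Agent.Helper28.T3E.Ne b d := by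
    unfold Pool.Agent.Helper28.T3E.Ne
    congr 2
    refine Finset.filter_congr fun j _ => ?_
    have e : ((b + 3 * d) * (j : ℤ)) % (d.natAbs : ℤ) = (b * (j : ℤ)) % (d.natAbs : ℤ) := by
      refine Int.modEq_iff_dvd.2 ?_
      have h1 : (d.natAbs : ℤ) ∣ d := Int.natAbs_dvd.2 dvd_rfl
      have h2 : b * (j : ℤ) - (b + 3 * d) * (j : ℤ) = d * (-3 * j) := by ring
      rw [h2]
      exact h1.mul_right _
    rw [e]
  unfold nu
  rw [h]

theorem hRA : StRA := by
  intro b d hc hb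
  refine ⟨ra_one b d hc, ra_two b d, ra_three b d, ?_⟩
  obtain ⟨b', rfl⟩ := hb
  rcases lt_trichotomy b' 0 with h | h | h
  · obtain ⟨m, hm⟩ : ∃ m : ℕ, b' = -(m : ℤ) := ⟨b'.natAbs, by omega⟩
    subst hm
    have hm : 1 ≤ m := by omega
    have e1 : (3 : ℤ) * -(m : ℤ) = -(3 * (m : ℤ)) := by ring
    rw [e1] at hc ⊢
    have hc1 : IsCoprime (3 * (m : ℤ)) d := by
      have := hc.neg_left
      rwa [neg_neg] at this
    have e2 : d + 3 * -(3 * (m : ℤ)) = d + (3 * (m : ℤ)) * (-3) := by ring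
    have hc2 : IsCoprime (3 * (m : ℤ)) (d + (3 * (m : ℤ)) * (-3)) := hc1.add_mul_left_right _
    rw [e2, ra_one _ _ hc1, ra_one _ _ hc2]
    have h4 := ra_four m (d + (3 * (m : ℤ)) * (-3)) hm hc2
    rw [← h4]
    congr 1
    ring
  · subst h
    simp
  · obtain ⟨m, hm⟩ : ∃ m : ℕ, b' = (m : ℤ) := ⟨b'.natAbs, by omega⟩
    subst hm
    exact ra_four m d (by omega) hc

end Pool.Agent.Helper99.T3E
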